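import Pool.Agent.Q77.Esc.Length

/-!
# Erdős's escape path problem: `S(n) → ∞`

For a monic polynomial `f` of degree `n` with all roots in the closed unit disc let `L(f)` be the
least length of a path from `0` to the unit circle inside `{|f| ≤ 1}`, and `S(n)` the supremum of
`L(f)` over all such `f`. We prove Erdős's conjecture that `S(n) → ∞` as `n → ∞`.
-/

namespace Pool.Agent.Results.MP_071f48_an.EscapeTendsToInfinity

open Filter Topology Set MeasureTheory Polynomial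

open scoped ENNReal

/-- Admissible polynomials of degree `n`: monic, degree `n`, all roots in the closed unit disc. -/
def Admissible (n : ℕ) (f : ℂ[X]) : Prop :=
  f.Monic ∧ f.natDegree = n ∧ ∀ z : ℂ, f.eval z = 0 → ‖z‖ ≤ 1

/-- `E_f = {z : |f(z)| ≤ 1}`. -/
def E (f : ℂ[X]) : Set ℂ := {z | ‖f.eval z‖ ≤ 1}

/-- `L(f)`: the infimum of the one-dimensional Hausdorff measures of the images of the paths in
`E_f` from `0` to the unit circle (`⊤` if there is none). -/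
noncomputable def L (f : ℂ[X]) : ℝ≥0∞ :=
  sInf {l | ∃ γ : ℝ → ℂ, ContinuousOn γ (Icc 0 1) ∧ γ 0 = 0 ∧ ‖γ 1‖ = 1 ∧
    γ '' Icc 0 1 ⊆ E f ∧ l = Measure.hausdorffMeasure 1 (γ '' Icc 0 1)}

/-- `S(n)`: the supremum of `L(f)` over the admissible polynomials of degree `n`. -/
noncomputable def S (n : ℕ) : ℝ≥0∞ := sSup {l | ∃ f : ℂ[X], Admissible n f ∧ l = L f}

/-- For every `K` and all large `n` some admissible polynomial of degree `n` has `L(f) ≥ K`. -/
theorem exists_large (K : ℕ) : ∃ n₀ : ℕ, ∀ n ≥ n₀, (K : ℝ≥0∞) ≤ S n := by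
  obtain ⟨g, hg0, hg⟩ := Q77.Esc.exists_poly (K + 1)
  obtain ⟨B, hB⟩ : ∃ B : ℝ, ∀ z ∈ Metric.closedBall (0 : ℂ) 1, ‖g.eval z‖ ≤ B :=
    (isCompact_closedBall (0 : ℂ) 1).exists_bound_of_continuousOn g.continuous.continuousOn
  have hB0 : 0 ≤ B := (norm_nonneg _).trans (hB 0 (by simp))
  set η : ℝ := 1 / (B + 1) with hη
  have hηpos : 0 < η := by positivity
  set p : ℂ[X] := 1 + C (η : ℂ) * g with hp
  have hpe : ∀ z, p.eval z = 1 + η * g.eval z := by intro z; simp [hp]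
  have hp0 : p.eval 0 = 1 := by rw [hpe, hg0]; simp
  have hpne : ∀ z : ℂ, ‖z‖ ≤ 1 → p.eval z ≠ 0 := by
    intro z hz h
    rw [hpe] at h
    have h1 : ‖(η : ℂ) * g.eval z‖ = 1 := by
      have : (η : ℂ) * g.eval z = -1 := by linear_combination h
      rw [this]; simp
    rw [norm_mul, Complex.norm_real, Real.norm_eq_abs, abs_of_pos hηpos] at h1
    have h2 := hB z (by simpa using hz)
    have h3 : η * ‖g.eval z‖ ≤ η * B := mul_le_mul_of_nonneg_left h2 hηpos.le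
    have h4 : η * B < 1 := by
      rw [hη, one_div, inv_mul_lt_iff₀ (by positivity)]; linarith
    linarith
  have hpbig : ∀ k < K + 1, ∀ z ∈ Q77.Esc.arc k, 1 + η ≤ ‖p.eval z‖ := by
    intro k hk z hz
    have h1 := hg k hk z hz
    calc 1 + η ≤ 1 + η * (g.eval z).re := by nlinarith
      _ = (p.eval z).re := by rw [hpe]; simp
      _ ≤ ‖p.eval z‖ := Complex.re_le_norm _
  obtain ⟨N₀, hN₀⟩ := Q77.Esc.ff_large hpne hηpos
    (show 0 ≤ Q77.Esc.rad (K + 1) by linarith [Q77.Esc.rad_ge_half (K + 1)])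
    (Q77.Esc.rad_lt_one (K + 1))
  refine ⟨max N₀ 1 + p.natDegree, fun n hn => ?_⟩
  obtain ⟨N, rfl⟩ : ∃ N, n = N + p.natDegree := ⟨n - p.natDegree, by omega⟩
  have hN : N ≥ max N₀ 1 := by omega
  have hN1 : 1 ≤ N := le_trans (le_max_right _ _) hN
  have hNN : N₀ ≤ N := le_trans (le_max_left _ _) hN
  have hadm : Admissible (N + p.natDegree) (Q77.Esc.ff p N) :=
    ⟨(Q77.Esc.ff_natDegree hp0 hN1).2, (Q77.Esc.ff_natDegree hp0 hN1).1,
      fun z hz => Q77.Esc.ff_root hpne hN1 hz⟩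
  refine le_trans ?_ (le_sSup ⟨_, hadm, rfl⟩)
  refine le_sInf ?_
  rintro l ⟨γ, hγ, h0, h1, hE, rfl⟩
  refine Q77.Esc.length_ge hγ h0 h1 ?_
  intro k hk t ht harc
  have h2 : ‖γ t‖ ≤ Q77.Esc.rad (K + 1) := by
    rw [harc.1]
    exact Q77.Esc.rad_strictMono.monotone (by omega)
  have h3 := hN₀ N hNN (γ t) h2 (hpbig k (by omega) _ harc)
  have h4 : ‖(Q77.Esc.ff p N).eval (γ t)‖ ≤ 1 := hE ⟨t, ht, rfl⟩
  linarith

/-- **Erdős's conjecture on escape paths.** `S(n) → ∞` as `n → ∞`. -/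
theorem result : Tendsto S atTop (𝓝 ⊤) := by
  rw [ENNReal.tendsto_nhds_top_iff_nat]
  intro K
  obtain ⟨n₀, h⟩ := exists_large (K + 1)
  filter_upwards [eventually_ge_atTop n₀] with n hn
  refine lt_of_lt_of_le ?_ (h n hn)
  exact_mod_cast Nat.lt_succ_self K

end Pool.Agent.Results.MP_071f48_an.EscapeTendsToInfinity
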